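import Pool.Agent.H84.LmpEx

namespace Pool.Agent.Results.MP_e518dc_lc.No

open Pool.Agent.H84.LmpDefs

theorem result : ∃ (L : Type) (_ : Countable L) (A B : LMP L) (s : A.S) (t : B.S),
    (∀ φ : Fm L, s ∈ sem A φ ↔ t ∈ sem B φ) ∧
    ¬ ∃ R, IsSumBisim A B R ∧ R (Sum.inl s) (Sum.inr t) :=
  ⟨Option ℚ, inferInstance, Pool.Agent.H84.LmpEx.main⟩

end Pool.Agent.Results.MP_e518dc_lc.No
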